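import Pool.Agent.Helper13.TW.StD

/-!
# Project TW, module CHN: closed chains of small arcs
-/

set_option autoImplicit false

namespace Pool.Agent.Helper37.TW

open Set Topology Pool.Agent.Helper13.TR Pool.Agent.Helper13.TW

section simp

variable {X : Type} [TopologicalSpace X]

/-- a singular `0`-simplex is the constant map at its value -/
private theorem sx0 (σ : Sx X 0) : σ = pt (σ (stdSimplex.vertex 0)) := by
  ext t
  have h : t = stdSimplex.vertex 0 := Subsingleton.elim _ _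
  rw [h]
  rfl

private theorem face_pt (σ : Sx X 1) (i : Fin 2) :
    σ.comp (face 0 i) = pt (σ (stdSimplex.vertex (i.succAbove 0))) := by
  rw [sx0 (σ.comp (face 0 i))]
  congr 1
  show σ (stdSimplex.map i.succAbove (stdSimplex.vertex 0)) = _
  rw [stdSimplex.map_vertex]

private theorem bd_single (σ : Sx X 1) :
    bd 0 (Finsupp.single σ (1 : ℤ)) =
      Finsupp.single (pt (σ (stdSimplex.vertex 1))) 1 -
        Finsupp.single (pt (σ (stdSimplex.vertex 0))) 1 := by
  have h : bd 0 (Finsupp.single σ (1 : ℤ)) =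
      ∑ i : Fin 2, ((-1 : ℤ) ^ (i : ℕ)) • Finsupp.single (σ.comp (face 0 i)) (1 : ℤ) := by
    simp [bd, Finsupp.linearCombination_single]
  rw [h, Fin.sum_univ_two, face_pt, face_pt]
  have e0 : (0 : Fin 2).succAbove (0 : Fin 1) = 1 := rfl
  have e1 : (1 : Fin 2).succAbove (0 : Fin 1) = 0 := rfl
  rw [e0, e1]
  simp [sub_eq_add_neg]

private theorem single_mem {S : Set X} {n : ℕ} {σ : Sx X n} (h : range σ ⊆ S) :
    Finsupp.single σ (1 : ℤ) ∈ cin S n :=
  Finsupp.single_mem_supported ℤ _ h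

/-- the end points of a `1`-simplex are joined in its image -/
private theorem joined (σ : Sx X 1) :
    JoinedIn (range σ) (σ (stdSimplex.vertex 0)) (σ (stdSimplex.vertex 1)) := by
  have e0 : stdSimplexHomeomorphUnitInterval.symm 0 = (stdSimplex.vertex 0 : Dl 1) := by
    rw [← stdSimplexHomeomorphUnitInterval_zero, Homeomorph.symm_apply_apply]
  have e1 : stdSimplexHomeomorphUnitInterval.symm 1 = (stdSimplex.vertex 1 : Dl 1) := by
    rw [← stdSimplexHomeomorphUnitInterval_one, Homeomorph.symm_apply_apply]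
  refine ⟨⟨⟨fun t => σ (stdSimplexHomeomorphUnitInterval.symm t),
    σ.continuous.comp stdSimplexHomeomorphUnitInterval.symm.continuous⟩, ?_, ?_⟩, ?_⟩
  · show σ (stdSimplexHomeomorphUnitInterval.symm 0) = _
    rw [e0]
  · show σ (stdSimplexHomeomorphUnitInterval.symm 1) = _
    rw [e1]
  · intro t
    exact ⟨_, rfl⟩

private theorem pt_inj {x y : X} (h : (pt x : Sx X 0) = pt y) : x = y := by
  have := congrArg (fun f : Sx X 0 => f (stdSimplex.vertex 0)) h
  exact this

end simp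

section main

variable {S : Type} [MetricSpace S]

/-- arcs in `Q` of diameter less than `ρ` -/
private structure Tr (Q : Set S) (ρ : ℝ) where
  D : Set S
  p : S
  q : S
  arc : IsArc D p q
  sub : D ⊆ Q
  dm : Metric.diam D < ρ

private noncomputable def Tr.d {Q : Set S} {ρ : ℝ} (t : Tr Q ρ) : Ch S 1 := dch t.D t.p t.q

/-- `u` is a cycle in `Q` -/
private def ZQ (Q : Set S) (u : Ch S 1) : Prop := u ∈ cin Q 1 ∧ bd 0 u = 0

private theorem ZQ.add {Q : Set S} {u v : Ch S 1} (hu : ZQ Q u) (hv : ZQ Q v) : ZQ Q (u + v) :=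
  ⟨Submodule.add_mem _ hu.1 hv.1, by rw [map_add, hu.2, hv.2, add_zero]⟩

private theorem ZQ.sub {Q : Set S} {u v : Ch S 1} (hu : ZQ Q u) (hv : ZQ Q v) : ZQ Q (u - v) :=
  ⟨Submodule.sub_mem _ hu.1 hv.1, by rw [map_sub, hu.2, hv.2, sub_zero]⟩

/-- everything about the winding number that is needed -/
private structure Wn (w : Ch S 1 → ℤ) (Q : Set S) (ρ : ℝ) : Prop where
  add : ∀ u v, ZQ Q u → ZQ Q v → w (u + v) = w u + w v
  sub : ∀ u v, ZQ Q u → ZQ Q v → w (u - v) = w u - w v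
  tame : ∀ C : Set S, C ⊆ Q → Metric.diam C < 4 * ρ → ∀ u ∈ cin C 1, bd 0 u = 0 → w u = 0

/-- the arcs have good chains -/
private def Ad (Q : Set S) : Prop := ∀ (D : Set S) (p q : S), IsArc D p q → D ⊆ Q →
  dch D p q ∈ cin D 1 ∧ bd 0 (dch D p q) = Finsupp.single (pt q) 1 - Finsupp.single (pt p) 1

private theorem arc_symm {D : Set S} {p q : S} (h : IsArc D p q) : IsArc D q p := by
  obtain ⟨γ, h1, h2⟩ := h
  refine ⟨γ.symm, ?_, ?_⟩
  · intro s t hst
    have : γ (unitInterval.symm s) = γ (unitInterval.symm t) := hst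
    have h3 := h1 this
    have h4 := congrArg unitInterval.symm h3
    rwa [unitInterval.symm_symm, unitInterval.symm_symm] at h4
  · rw [Path.symm_range, h2]

/-- a chain which is, up to cycles of winding number zero, a sum of small arcs -/
private def Pr (w : Ch S 1 → ℤ) (Q : Set S) (ρ : ℝ) (u : Ch S 1) : Prop :=
  ∃ M : Multiset (Tr Q ρ), ZQ Q (u - (M.map Tr.d).sum) ∧ w (u - (M.map Tr.d).sum) = 0

private theorem Pr.add {w : Ch S 1 → ℤ} {Q : Set S} {ρ : ℝ} (hw : Wn w Q ρ) {u v : Ch S 1}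
    (hu : Pr w Q ρ u) (hv : Pr w Q ρ v) : Pr w Q ρ (u + v) := by
  obtain ⟨M, h1, h2⟩ := hu
  obtain ⟨N, h3, h4⟩ := hv
  refine ⟨M + N, ?_⟩
  have h5 : u + v - ((M + N).map Tr.d).sum =
      (u - (M.map Tr.d).sum) + (v - (N.map Tr.d).sum) := by
    rw [Multiset.map_add, Multiset.sum_add]
    abel
  rw [h5]
  refine ⟨h1.add h3, ?_⟩
  rw [hw.add _ _ h1 h3, h2, h4, add_zero]

private theorem w_zero {w : Ch S 1 → ℤ} {Q : Set S} {ρ : ℝ} (hw : Wn w Q ρ) : w 0 = 0 := by
  have h0 : ZQ Q 0 := ⟨Submodule.zero_mem _, map_zero _⟩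
  have := hw.sub 0 0 h0 h0
  rwa [sub_self, sub_self] at this

private theorem Pr.zero {w : Ch S 1 → ℤ} {Q : Set S} {ρ : ℝ} (hw : Wn w Q ρ) : Pr w Q ρ 0 := by
  refine ⟨0, ?_⟩
  rw [Multiset.map_zero, Multiset.sum_zero, sub_zero]
  exact ⟨⟨Submodule.zero_mem _, map_zero _⟩, w_zero hw⟩

/-- one simplex -/
private theorem Pr.single {w : Ch S 1 → ℤ} {Q : Set S} {ρ : ℝ} (hρ : 0 < ρ) (hw : Wn w Q ρ)
    (hMON : StMON) (hARX : StARX) (hA : Ad Q) (σ : Sx S 1) (hσ : range σ ⊆ Q)
    (hd : Metric.diam (range σ) < ρ) :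
    Pr w Q ρ (Finsupp.single σ 1) ∧ Pr w Q ρ (-Finsupp.single σ 1) := by
  have hM := (hMON S).1
  have h4 : Metric.diam (range σ) < 4 * ρ := by linarith
  have hbd : Bornology.IsBounded (range σ) := (isCompact_range σ.continuous).isBounded
  by_cases hpq : σ (stdSimplex.vertex 0) = σ (stdSimplex.vertex 1)
  · have hc : Finsupp.single σ (1 : ℤ) ∈ cin (range σ) 1 := single_mem subset_rfl
    have hb : bd 0 (Finsupp.single σ (1 : ℤ)) = 0 := by
      rw [bd_single, hpq, sub_self]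
    constructor
    · refine ⟨0, ?_⟩
      rw [Multiset.map_zero, Multiset.sum_zero, sub_zero]
      exact ⟨⟨hM _ _ 1 hσ hc, hb⟩, hw.tame _ hσ h4 _ hc hb⟩
    · refine ⟨0, ?_⟩
      rw [Multiset.map_zero, Multiset.sum_zero, sub_zero]
      have hc' : -Finsupp.single σ (1 : ℤ) ∈ cin (range σ) 1 := Submodule.neg_mem _ hc
      have hb' : bd 0 (-Finsupp.single σ (1 : ℤ)) = 0 := by rw [map_neg, hb, neg_zero]
      exact ⟨⟨hM _ _ 1 hσ hc', hb'⟩, hw.tame _ hσ h4 _ hc' hb'⟩
  · obtain ⟨D, hD, hDa⟩ := hARX S (range σ) _ _ (joined σ) hpq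
    have hDd : Metric.diam D < ρ := lt_of_le_of_lt (Metric.diam_mono hD hbd) hd
    have hc : Finsupp.single σ (1 : ℤ) ∈ cin (range σ) 1 := single_mem subset_rfl
    constructor
    · obtain ⟨h1, h2⟩ := hA D _ _ hDa (hD.trans hσ)
      refine ⟨{⟨D, _, _, hDa, hD.trans hσ, hDd⟩}, ?_⟩
      rw [Multiset.map_singleton, Multiset.sum_singleton]
      have hc' : Finsupp.single σ (1 : ℤ) -
          dch D (σ (stdSimplex.vertex 0)) (σ (stdSimplex.vertex 1)) ∈ cin (range σ) 1 :=
        Submodule.sub_mem _ hc (hM _ _ 1 hD h1)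
      have hb' : bd 0 (Finsupp.single σ (1 : ℤ) -
          dch D (σ (stdSimplex.vertex 0)) (σ (stdSimplex.vertex 1))) = 0 := by
        rw [map_sub, bd_single, h2, sub_self]
      exact ⟨⟨hM _ _ 1 hσ hc', hb'⟩, hw.tame _ hσ h4 _ hc' hb'⟩
    · have hDs := arc_symm hDa
      obtain ⟨h1, h2⟩ := hA D _ _ hDs (hD.trans hσ)
      refine ⟨{⟨D, _, _, hDs, hD.trans hσ, hDd⟩}, ?_⟩
      rw [Multiset.map_singleton, Multiset.sum_singleton]
      have hc' : -Finsupp.single σ (1 : ℤ) -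
          dch D (σ (stdSimplex.vertex 1)) (σ (stdSimplex.vertex 0)) ∈ cin (range σ) 1 :=
        Submodule.sub_mem _ (Submodule.neg_mem _ hc) (hM _ _ 1 hD h1)
      have hb' : bd 0 (-Finsupp.single σ (1 : ℤ) -
          dch D (σ (stdSimplex.vertex 1)) (σ (stdSimplex.vertex 0))) = 0 := by
        rw [map_sub, map_neg, bd_single, h2]
        abel
      exact ⟨⟨hM _ _ 1 hσ hc', hb'⟩, hw.tame _ hσ h4 _ hc' hb'⟩

/-- multiples of one simplex -/
private theorem Pr.smul {w : Ch S 1 → ℤ} {Q : Set S} {ρ : ℝ} (hw : Wn w Q ρ) {u : Ch S 1}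
    (h1 : Pr w Q ρ u) (h2 : Pr w Q ρ (-u)) (n : ℤ) : Pr w Q ρ (n • u) := by
  induction n using Int.induction_on with
  | zero => rw [zero_smul]; exact Pr.zero hw
  | succ n ih => rw [add_smul, one_smul]; exact Pr.add hw ih h1
  | pred n ih => rw [sub_smul, one_smul, sub_eq_add_neg]; exact Pr.add hw ih h2

/-- all chains of small simplices -/
private theorem Pr.all {w : Ch S 1 → ℤ} {Q : Set S} {ρ : ℝ} (hρ : 0 < ρ) (hw : Wn w Q ρ)
    (hMON : StMON) (hARX : StARX) (hA : Ad Q) (z : Ch S 1) (hz : z ∈ cin Q 1)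
    (hd : ∀ σ ∈ z.support, Metric.diam (range σ) < ρ) : Pr w Q ρ z := by
  rw [← Finsupp.sum_single z]
  refine Finset.sum_induction _ (Pr w Q ρ) (fun a b ha hb => Pr.add hw ha hb) (Pr.zero hw) ?_
  intro σ hσ
  have hσQ : range σ ⊆ Q := (Finsupp.mem_supported ℤ z).1 hz hσ
  have h := Pr.single hρ hw hMON hARX hA σ hσQ (hd σ hσ)
  have h2 := Pr.smul hw h.1 h.2 (z σ)
  rwa [Finsupp.smul_single, smul_eq_mul, mul_one] at h2

/-- the boundary of a sum of arcs -/
private theorem bd_sum {Q : Set S} {ρ : ℝ} (hA : Ad Q) (M : Multiset (Tr Q ρ)) :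
    bd 0 (M.map Tr.d).sum =
      (M.map fun t : Tr Q ρ => (Finsupp.single (pt t.q) 1 - Finsupp.single (pt t.p) 1 : Ch S 0)).sum := by
  induction M using Multiset.induction_on with
  | empty => simp
  | cons t M ih =>
    rw [Multiset.map_cons, Multiset.sum_cons, map_add, ih, Multiset.map_cons, Multiset.sum_cons]
    congr 1
    exact (hA t.D t.p t.q t.arc t.sub).2

/-- the next arc -/
private theorem next {Q : Set S} {ρ : ℝ} (hA : Ad Q) (M : Multiset (Tr Q ρ))
    (hM : bd 0 (M.map Tr.d).sum = 0) (t : Tr Q ρ) (ht : t ∈ M) : ∃ t' ∈ M, t'.p = t.q := by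
  classical
  by_contra hcon
  push Not at hcon
  rw [bd_sum hA] at hM
  have key : ∀ N : Multiset (Tr Q ρ), (∀ t' ∈ N, t'.p ≠ t.q) →
      0 ≤ ((N.map fun t : Tr Q ρ =>
        (Finsupp.single (pt t.q) 1 - Finsupp.single (pt t.p) 1 : Ch S 0)).sum) (pt t.q) := by
    intro N
    induction N using Multiset.induction_on with
    | empty => intro _; simp
    | cons s N ih =>
      intro hN
      rw [Multiset.map_cons, Multiset.sum_cons, Finsupp.add_apply, Finsupp.sub_apply]
      have h1 := ih (fun t' ht' => hN t' (Multiset.mem_cons_of_mem ht'))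
      have h2 : (Finsupp.single (pt s.p) (1 : ℤ) : Ch S 0) (pt t.q) = 0 := by
        rw [Finsupp.single_apply, if_neg]
        intro h
        exact hN s (Multiset.mem_cons_self s N) (pt_inj h)
      have h3 : 0 ≤ (Finsupp.single (pt s.q) (1 : ℤ) : Ch S 0) (pt t.q) := by
        rw [Finsupp.single_apply]
        split_ifs <;> norm_num
      rw [h2, sub_zero]
      exact add_nonneg h3 h1
  obtain ⟨N, rfl⟩ := Multiset.exists_cons_of_mem ht
  have h1 := key N (fun t' ht' => hcon t' (Multiset.mem_cons_of_mem ht'))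
  have h2 := congrArg (fun f : Ch S 0 => f (pt t.q)) hM
  simp only [Multiset.map_cons, Multiset.sum_cons, Finsupp.add_apply, Finsupp.sub_apply,
    Finsupp.coe_zero, Pi.zero_apply] at h2
  have h3 : (Finsupp.single (pt t.p) (1 : ℤ) : Ch S 0) (pt t.q) = 0 := by
    rw [Finsupp.single_apply, if_neg]
    intro h
    exact hcon t (Multiset.mem_cons_self t N) (pt_inj h)
  have h4 : (Finsupp.single (pt t.q) (1 : ℤ) : Ch S 0) (pt t.q) = 1 := by
    rw [Finsupp.single_apply, if_pos rfl]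
  rw [h3, h4] at h2
  linarith

/-- a closed chain of arcs inside a cycle of arcs -/
private theorem exists_loop {Q : Set S} {ρ : ℝ} (hA : Ad Q) (M : Multiset (Tr Q ρ))
    (hM : bd 0 (M.map Tr.d).sum = 0) (hne : M ≠ 0) :
    ∃ (k : ℕ) (f : ℕ → Tr Q ρ), 1 ≤ k ∧ f k = f 0 ∧ (∀ i, (f (i + 1)).p = (f i).q) ∧
      (Multiset.range k).map f ≤ M := by
  classical
  obtain ⟨t₀, ht₀⟩ := Multiset.exists_mem_of_ne_zero hne
  choose! nx hnx using fun (t : Tr Q ρ) (ht : t ∈ M) => next hA M hM t ht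
  -- iterates stay in `M`
  have hit : ∀ (i : ℕ) (t : Tr Q ρ), t ∈ M → nx^[i] t ∈ M := by
    intro i
    induction i with
    | zero => intro t ht; exact ht
    | succ i ih => intro t ht; exact ih _ (hnx t ht).1
  -- a periodic point
  obtain ⟨a, b, hab, he⟩ : ∃ a b : ℕ, a ≠ b ∧ nx^[a] t₀ = nx^[b] t₀ := by
    have hmaps : Set.MapsTo (fun i : ℕ => nx^[i] t₀) Set.univ (M.toFinset : Set (Tr Q ρ)) := by
      intro i _
      simpa using hit i t₀ ht₀
    obtain ⟨a, -, b, -, hab, he⟩ := Set.infinite_univ.exists_ne_map_eq_of_mapsTo hmaps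
      (Finset.finite_toSet _)
    exact ⟨a, b, hab, he⟩
  obtain ⟨y, hyM, hyp⟩ : ∃ y ∈ M, y ∈ Function.periodicPts nx := by
    rcases lt_or_gt_of_ne hab with h | h
    · refine ⟨nx^[a] t₀, hit a t₀ ht₀, b - a, by omega, ?_⟩
      show nx^[b - a] (nx^[a] t₀) = nx^[a] t₀
      rw [← Function.iterate_add_apply, Nat.sub_add_cancel h.le]
      exact he.symm
    · refine ⟨nx^[b] t₀, hit b t₀ ht₀, a - b, by omega, ?_⟩
      show nx^[a - b] (nx^[b] t₀) = nx^[b] t₀
      rw [← Function.iterate_add_apply, Nat.sub_add_cancel h.le]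
      exact he
  refine ⟨Function.minimalPeriod nx y, fun i => nx^[i] y, ?_, ?_, ?_, ?_⟩
  · exact Function.minimalPeriod_pos_of_mem_periodicPts hyp
  · show nx^[Function.minimalPeriod nx y] y = y
    exact Function.iterate_minimalPeriod
  · intro i
    show (nx^[i + 1] y).p = (nx^[i] y).q
    rw [Function.iterate_succ_apply']
    exact (hnx _ (hit i y hyM)).2
  · rw [Multiset.le_iff_subset]
    · intro t ht
      obtain ⟨i, -, rfl⟩ := Multiset.mem_map.1 ht
      exact hit i y hyM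
    · refine Multiset.Nodup.map_on ?_ (Multiset.nodup_range _)
      intro i hi j hj hij
      exact Function.iterate_injOn_Iio_minimalPeriod (Multiset.mem_range.1 hi)
        (Multiset.mem_range.1 hj) hij

/-- the induction on the number of arcs -/
private theorem loops {w : Ch S 1 → ℤ} {Q : Set S} {ρ : ℝ} (hw : Wn w Q ρ) (hMON : StMON)
    (hA : Ad Q) : ∀ (c : ℕ) (M : Multiset (Tr Q ρ)), Multiset.card M ≤ c →
      bd 0 (M.map Tr.d).sum = 0 → w (M.map Tr.d).sum ≠ 0 →
      ∃ (k : ℕ) (f : ℕ → Tr Q ρ), 1 ≤ k ∧ f k = f 0 ∧ (∀ i, (f (i + 1)).p = (f i).q) ∧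
        w (∑ i ∈ Finset.range k, (f i).d) ≠ 0 := by
  classical
  have hcQ : ∀ N : Multiset (Tr Q ρ), (N.map Tr.d).sum ∈ cin Q 1 := by
    intro N
    refine multiset_sum_mem _ ?_
    intro u hu
    obtain ⟨t, -, rfl⟩ := Multiset.mem_map.1 hu
    exact (hMON S).1 _ _ 1 t.sub (hA t.D t.p t.q t.arc t.sub).1
  intro c
  induction c with
  | zero =>
    intro M hc hb hne
    have hM0 : M = 0 := Multiset.card_eq_zero.1 (Nat.le_zero.1 hc)
    rw [hM0, Multiset.map_zero, Multiset.sum_zero] at hne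
    exact absurd (w_zero hw) hne
  | succ c ih =>
    intro M hc hb hne
    by_cases hM0 : M = 0
    · rw [hM0, Multiset.map_zero, Multiset.sum_zero] at hne
      exact absurd (w_zero hw) hne
    obtain ⟨k, f, hk, hf, hfq, hle⟩ := exists_loop hA M hb hM0
    have hsum : ((((Multiset.range k).map f)).map Tr.d).sum = ∑ i ∈ Finset.range k, (f i).d := by
      rw [Multiset.map_map]
      rfl
    by_cases hwk : w (∑ i ∈ Finset.range k, (f i).d) = 0
    · -- remove the loop
      have hbN : bd 0 (∑ i ∈ Finset.range k, (f i).d) = 0 := by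
        rw [map_sum]
        have h1 : ∀ i ∈ Finset.range k, bd 0 (f i).d =
            (Finsupp.single (pt (f (i + 1)).p) 1 - Finsupp.single (pt (f i).p) 1 : Ch S 0) := by
          intro i _
          rw [hfq i]
          exact (hA (f i).D (f i).p (f i).q (f i).arc (f i).sub).2
        rw [Finset.sum_congr rfl h1,
          Finset.sum_range_sub (fun i => (Finsupp.single (pt (f i).p) 1 : Ch S 0)) k, hf, sub_self]
      have hM : M - (Multiset.range k).map f + (Multiset.range k).map f = M :=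
        Multiset.sub_add_cancel hle
      have hsplit : (M.map Tr.d).sum =
          ((M - (Multiset.range k).map f).map Tr.d).sum + ∑ i ∈ Finset.range k, (f i).d := by
        conv_lhs => rw [← hM]
        rw [Multiset.map_add, Multiset.sum_add, hsum]
      have hz1 : ZQ Q (M.map Tr.d).sum := ⟨hcQ M, hb⟩
      have hz2 : ZQ Q (∑ i ∈ Finset.range k, (f i).d) := ⟨hsum ▸ hcQ _, hbN⟩
      have hrest : ((M - (Multiset.range k).map f).map Tr.d).sum =
          (M.map Tr.d).sum - ∑ i ∈ Finset.range k, (f i).d := by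
        rw [hsplit]; abel
      refine ih (M - (Multiset.range k).map f) ?_ ?_ ?_
      · rw [Multiset.card_sub hle, Multiset.card_map, Multiset.card_range]
        omega
      · rw [hrest]
        exact (hz1.sub hz2).2
      · rw [hrest, hw.sub _ _ hz1 hz2, hwk, sub_zero]
        exact hne
    · exact ⟨k, f, hk, hf, hfq, hwk⟩

end main

theorem hCHN (hSDM : StSDM) (hARX : StARX) (hWIN : StWIN) (hAC1 : StAC1) (_hARB : StARB)
    (hMON : StMON) (hSDA : StSDA) : StCHN := by
  intro S _ _ _ ω V hGR Q a ρ hQ hQV haQ hρ hTame z hz hbz hWz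
  obtain ⟨-, hW2, -, -, hW5⟩ := hWIN S ω hGR.ws hGR.nc
  have hM := (hMON S).1
  have hQa : Q ⊆ ({a} : Set S)ᶜ := by
    intro x hx hxa
    rw [mem_singleton_iff] at hxa
    exact haQ (hxa ▸ hx)
  have hbound : ∀ u, ZQ Q u → ∃ e : Ch S 2, bd 1 e = u := fun u hu =>
    hGR.bv u (hM _ _ 1 hQV hu.1) hu.2
  have hw : Wn (fun u => W ω u a) Q ρ := by
    refine ⟨?_, ?_, ?_⟩
    · intro u v hu hv
      exact (hW2 u v a (hbound u hu) (hbound v hv) (hM _ _ 1 hQa hu.1) (hM _ _ 1 hQa hv.1)).1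
    · intro u v hu hv
      exact (hW2 u v a (hbound u hu) (hbound v hv) (hM _ _ 1 hQa hu.1) (hM _ _ 1 hQa hv.1)).2.2
    · exact hTame
  have hA : Ad Q := fun D p q hD _ => (hAC1 S D p q hD).2
  obtain ⟨z', hz', f, hf, hzf, hsm⟩ := hSDM S Q ρ hρ z hz hbz
  have hzz : ZQ Q z := ⟨hz, hbz⟩
  have hz1 : ZQ Q (bd 1 f) := by
    refine ⟨?_, (hSDA S).1 0 f⟩
    rw [← hzf]
    exact Submodule.sub_mem _ hz hz'
  have hz'e : z' = z - bd 1 f := by rw [← hzf]; abel
  have hzz' : ZQ Q z' := by rw [hz'e]; exact hzz.sub hz1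
  have hWz' : W ω z' a ≠ 0 := by
    have h1 : W ω (z - bd 1 f) a = W ω z a - W ω (bd 1 f) a := hw.sub z (bd 1 f) hzz hz1
    rw [hz'e, h1, hW5 f Q hf a haQ, sub_zero]
    exact hWz
  obtain ⟨M, hM1, hM2⟩ := Pr.all hρ hw hMON hARX hA z' hz' hsm
  have hMs : (M.map Tr.d).sum = z' - (z' - (M.map Tr.d).sum) := by abel
  have hMz : ZQ Q (M.map Tr.d).sum := by rw [hMs]; exact hzz'.sub hM1
  have hMw : W ω (M.map Tr.d).sum a ≠ 0 := by
    have h1 : W ω (z' - (z' - (M.map Tr.d).sum)) a =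
        W ω z' a - W ω (z' - (M.map Tr.d).sum) a := hw.sub _ _ hzz' hM1
    have h2 : W ω (z' - (M.map Tr.d).sum) a = 0 := hM2
    rw [hMs, h1, h2, sub_zero]
    exact hWz'
  obtain ⟨k, g, hk, hg, hgq, hgw⟩ := loops hw hMON hA (Multiset.card M) M le_rfl hMz.2 hMw
  refine ⟨k, fun i => (g i).p, fun i => (g i).D, hk, ⟨congrArg Tr.p hg, ?_⟩, ?_⟩
  · intro i _
    refine ⟨?_, (g i).sub, (g i).dm⟩
    show IsArc (g i).D (g i).p (g (i + 1)).p
    rw [hgq i]
    exact (g i).arc
  · unfold wch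
    have h1 : ∑ i ∈ Finset.range k, dch ((g i).D) ((g i).p) ((g (i + 1)).p) =
        ∑ i ∈ Finset.range k, (g i).d := by
      refine Finset.sum_congr rfl ?_
      intro i _
      rw [hgq i]
      rfl
    rw [h1]
    exact hgw

end Pool.Agent.Helper37.TW
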