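import Pool.Agent.Helper13.TW.StF

/-!
# Project TW, module FIN2: homology 2-manifolds are 2-manifolds
-/

set_option autoImplicit false

namespace Pool.Agent.Helper37.TW

open Set Topology Pool.Agent.Helper13.TR Pool.Agent.Helper13.TW

private theorem mcell_disc : MCell (Metric.closedBall 0 1) (Metric.sphere 0 1) := by
  refine ⟨Homeomorph.refl ℂ, ?_, ?_⟩
  · exact image_id _
  · exact image_id _

private theorem csy_plane (hMD2 : StMD2) (hMD3 : StMD3) : CSy MCell := by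
  refine ⟨hMD2.1, ?_, ?_⟩
  · intro E J p q D₁ D₂ hE hJ
    exact hMD2.2 E J p q D₁ D₂ hE hJ
  · intro ε hε E J hE
    exact hMD3 ε hε E J hE

/-- the local model -/
private theorem local_model {S : Type} [MetricSpace S] [LocallyPathConnectedSpace S]
    [PathConnectedSpace S] {ω : S → Ch S 2 → ℤ} {V : Set S} (hGR : GR S ω V) (hLS : LH1 S)
    (a : S) (ha : a ∈ V) (hSCE : StSCE) (hTWO : StTWO) (hCSS : StCSS) (hMD2 : StMD2)
    (hMD3 : StMD3) (hBF : StBF) :
    ∃ I : Set S, IsOpen I ∧ a ∈ I ∧ ∃ g : ↥I → ℂ, IsOpenEmbedding g := by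
  obtain ⟨J, hCel, haJ, -⟩ := hSCE S ω V hGR hLS a ha univ isOpen_univ (mem_univ a)
  have hIns : IsOpen (Ins ω J) := (hTWO S ω V hGR J hCel.1).1.1
  obtain ⟨f, hf⟩ := hBF S ℂ (fun E J => Cel ω V J ∧ E = cl ω J) MCell (hCSS S ω V hGR hLS)
    (csy_plane hMD2 hMD3) (cl ω J) J (Metric.closedBall 0 1) (Metric.sphere 0 1) ⟨hCel, rfl⟩
    mcell_disc
  have hsub : Ins ω J ⊆ cl ω J := subset_union_right
  refine ⟨Ins ω J, hIns, haJ, fun y => (f (inclusion hsub y) : ℂ), ?_, ?_⟩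
  · exact IsEmbedding.subtypeVal.comp (f.isEmbedding.comp (IsEmbedding.inclusion hsub))
  · have hr : range (fun y : ↥(Ins ω J) => (f (inclusion hsub y) : ℂ)) = Metric.ball 0 1 := by
      ext w
      constructor
      · rintro ⟨y, rfl⟩
        have h1 : (f (inclusion hsub y) : ℂ) ∈ Metric.closedBall 0 1 := (f (inclusion hsub y)).2
        have h2 : (f (inclusion hsub y) : ℂ) ∉ Metric.sphere 0 1 := by
          intro h
          exact y.2.1 ((hf (inclusion hsub y)).2 h)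
        rw [Metric.mem_ball]
        exact lt_of_le_of_ne (Metric.mem_closedBall.1 h1) (fun h => h2 (Metric.mem_sphere.2 h))
      · intro hw
        have hw1 : w ∈ Metric.closedBall (0 : ℂ) 1 := Metric.ball_subset_closedBall hw
        have hw2 : w ∉ Metric.sphere (0 : ℂ) 1 := by
          intro h
          rw [Metric.mem_sphere] at h
          rw [Metric.mem_ball, h] at hw
          exact lt_irrefl _ hw
        have h3 : ((f.symm ⟨w, hw1⟩ : ↥(cl ω J)) : S) ∉ J := by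
          intro h
          apply hw2
          have := (hf (f.symm ⟨w, hw1⟩)).1 h
          rwa [Homeomorph.apply_symm_apply] at this
        have h4 : ((f.symm ⟨w, hw1⟩ : ↥(cl ω J)) : S) ∈ Ins ω J :=
          (f.symm ⟨w, hw1⟩).2.resolve_left h3
        refine ⟨⟨_, h4⟩, ?_⟩
        show (f (f.symm ⟨w, hw1⟩) : ℂ) = w
        rw [Homeomorph.apply_symm_apply]
    rw [hr]
    exact Metric.isOpen_ball

theorem hFIN2 (hGRX : StGRX) (hSCE : StSCE) (hTWO : StTWO) (hCSS : StCSS) (hMD2 : StMD2)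
    (hMD3 : StMD3) (hBF : StBF) : StFIN2 := by
  intro X _ _ _ hHM hLH x
  obtain ⟨S₀, hx, ω, V, hopen, hpc, hGR, hxV, hLS⟩ := hGRX X hHM hLH x
  have hlp : LocallyPathConnectedSpace ↥S₀ := hopen.locallyPathConnectedSpace
  let _ : MetricSpace ↥S₀ := TopologicalSpace.metrizableSpaceMetric ↥S₀
  obtain ⟨I, hI, haI, g, hg⟩ := local_model hGR hLS ⟨x, hx⟩ hxV hSCE hTWO hCSS hMD2 hMD3 hBF
  have hι : IsOpenEmbedding (fun y : ↥I => ((y : ↥S₀) : X)) :=
    hopen.isOpenEmbedding_subtypeVal.comp hI.isOpenEmbedding_subtypeVal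
  refine ⟨range (fun y : ↥I => ((y : ↥S₀) : X)), hι.isOpen_range, ⟨⟨⟨x, hx⟩, haI⟩, rfl⟩,
    g ∘ hι.isEmbedding.toHomeomorph.symm, ?_⟩
  exact hg.comp hι.isEmbedding.toHomeomorph.symm.isOpenEmbedding

end Pool.Agent.Helper37.TW
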