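import Pool.Agent.Helper53.TW.S1
import Pool.Agent.Helper57.TW.S2
import Pool.Agent.Helper32.TW.S3
import Pool.Agent.Helper53.TW.S4

/-!
# Stepanov bound (module S5)
-/

set_option autoImplicit false

namespace Pool.Agent.Helper54.PT

open Polynomial Finset Filter Topology Module

theorem s5_sqf {K : Type} [Field K] (e : K[X] ≃ₐ[K] K[X]) {f : K[X]} (hf : Squarefree f) :
    Squarefree (e f) := by
  intro x hx
  have h1 : e.symm x * e.symm x ∣ f := by
    have := map_dvd e.symm hx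
    simpa using this
  have h2 := (hf _ h1).map e
  simpa using h2

/-- the counting inequality -/
theorem s5_count (Q d m h A : ℕ) (hQ : 4 * (d + 3) ^ 2 ≤ Q) (hm : m * m ≤ Q) (hm2 : 2 * (d + 3) ≤ m)
    (h1 : 2 * h ≤ m) (h2 : m ≤ 2 * h + 1) (hA : Q ≤ 2 * A + d + 1) :
    m * (A + (h + d + 3)) + d * m ^ 2 < 2 * A * (h + d + 3) := by
  have e1 : A * (m + (2 * d + 5)) ≤ A * (2 * (h + d + 3)) := Nat.mul_le_mul_left _ (by omega)
  have e2 : 2 * (m * (h + d + 3)) ≤ 2 * (m * m) := by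
    have : m * (2 * (h + d + 3)) ≤ m * (2 * m) := Nat.mul_le_mul_left _ (by omega)
    nlinarith
  have e3 : (2 * d + 2) * (m * m) ≤ (2 * d + 2) * Q := Nat.mul_le_mul_left _ hm
  have e4 : Q * (2 * d + 5) ≤ (2 * A + d + 1) * (2 * d + 5) := Nat.mul_le_mul_right _ hA
  have e5 : (d + 1) * (2 * d + 5) < 3 * Q := by nlinarith
  nlinarith

/-- the main estimate, when zero is not a root -/
theorem s5_core {K : Type} [Field K] [Fintype K] (c : ℕ) (hc : Fintype.card K = 2 * c + 1)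
    (f : K[X]) (hf : Squarefree f) (hd : 1 ≤ f.natDegree)
    (hbig : 4 * (f.natDegree + 3) ^ 2 ≤ Fintype.card K) (b : K) (h0 : f.eval 0 ≠ 0)
    (S : Finset K) (hS : ∀ x ∈ S, f.eval x ^ c = b) :
    Nat.sqrt (Fintype.card K) * S.card ≤ Nat.sqrt (Fintype.card K) * f.natDegree +
      ((Fintype.card K - f.natDegree) / 2 + c * f.natDegree +
        (Nat.sqrt (Fintype.card K) / 2 + f.natDegree + 2) * Fintype.card K) := by
  classical
  obtain ⟨Q, hQ⟩ : ∃ Q, Q = Fintype.card K := ⟨_, rfl⟩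
  obtain ⟨d, hdd⟩ : ∃ d, d = f.natDegree := ⟨_, rfl⟩
  obtain ⟨m, hm⟩ : ∃ m, m = Nat.sqrt Q := ⟨_, rfl⟩
  rw [← hQ, ← hdd, ← hm]
  rw [← hdd, ← hQ] at hbig
  rw [← hdd] at hd
  rw [← hQ] at hc
  obtain ⟨h, hh⟩ : ∃ h, h = m / 2 := ⟨_, rfl⟩
  obtain ⟨A, hA⟩ : ∃ A, A = (Q - d) / 2 := ⟨_, rfl⟩
  rw [← hh, ← hA]
  have hmm : m * m ≤ Q := by rw [hm]; exact Nat.sqrt_le Q
  have hm2 : 2 * (d + 3) ≤ m := by
    rw [hm, Nat.le_sqrt]
    nlinarith
  have hdQ : d ≤ Q := by nlinarith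
  have hA1 : Q ≤ 2 * A + d + 1 := by omega
  have hA2 : 2 * A + d ≤ Q := by omega
  obtain ⟨J, hJ⟩ : ∃ J, J = h + d + 3 := ⟨_, rfl⟩
  have hcount : m * (A + J) + d * m ^ 2 < 2 * A * J := by
    rw [hJ]
    exact s5_count Q d m h A hbig hmm hm2 (by omega) (by omega) hA1
  have hmQ : m ≤ Q := by nlinarith
  -- the characteristic
  obtain ⟨p, hp⟩ := CharP.exists K
  obtain ⟨n, hpp, hpn⟩ := FiniteField.card K p
  rw [← hQ] at hpn
  -- the operators
  have hT : ∀ k, ∃ T : K[X] →ₗ[K] K[X], k ≤ m →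
      ((∀ g, hasseDeriv k (f ^ m * g) = f ^ (m - k) * T g) ∧
      ∀ A : ℕ, ∀ g ∈ degreeLT K A, T g ∈ degreeLT K (A + k * d)) := by
    intro k
    by_cases hk : k ≤ m
    · obtain ⟨T, hT⟩ := hasse_pow_mul f m k hk
      rw [← hdd] at hT
      exact ⟨T, fun _ => hT⟩
    · exact ⟨0, fun h => absurd h hk⟩
  have hU : ∀ k, ∃ T : K[X] →ₗ[K] K[X], k ≤ m →
      ((∀ g, hasseDeriv k (f ^ (m + c) * g) = f ^ (m + c - k) * T g) ∧
      ∀ A : ℕ, ∀ g ∈ degreeLT K A, T g ∈ degreeLT K (A + k * d)) := by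
    intro k
    by_cases hk : k ≤ m
    · obtain ⟨T, hT⟩ := hasse_pow_mul f (m + c) k (by omega)
      rw [← hdd] at hT
      exact ⟨T, fun _ => hT⟩
    · exact ⟨0, fun h => absurd h hk⟩
  choose T hT using hT
  choose U hU using hU
  obtain ⟨r, s, hr, hs, hne, hrs⟩ := exists_aux A J m d T U b
    (fun k hk g hg => (hT k hk.le).2 A g hg) (fun k hk g hg => (hU k hk.le).2 A g hg) hcount
  have hR0 := aux_ne_zero c (by rw [← hQ]; exact hc) f hf (by rw [← hdd]; exact hd) h0 A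
    (by rw [← hdd, ← hQ]; exact hA2) J r s hr hs hne
  rw [← hQ] at hR0
  set P : K[X] := ∑ j : Fin J, (r j + s j * f ^ c) * X ^ ((j : ℕ) * Q) with hP
  have hf0 : f ≠ 0 := hf.ne_zero
  have hRne : f ^ m * P ≠ 0 := mul_ne_zero (pow_ne_zero _ hf0) hR0
  have hRexp : f ^ m * P = ∑ j : Fin J, ((f ^ m * r j) * X ^ ((j : ℕ) * Q) +
      (f ^ (m + c) * s j) * X ^ ((j : ℕ) * Q)) := by
    rw [hP, Finset.mul_sum]
    refine Finset.sum_congr rfl fun j _ => ?_
    rw [pow_add]; ring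
  have hder : ∀ k < m, hasseDeriv k (f ^ m * P) = ∑ j : Fin J,
      ((f ^ (m - k) * T k (r j)) * X ^ ((j : ℕ) * Q) +
        (f ^ (m + c - k) * U k (s j)) * X ^ ((j : ℕ) * Q)) := by
    intro k hk
    rw [hRexp, map_sum]
    refine Finset.sum_congr rfl fun j _ => ?_
    rw [map_add, hpn, hasse_mul_X_pow p hpp n k (by rw [← hpn]; omega) j,
      hasse_mul_X_pow p hpp n k (by rw [← hpn]; omega) j, (hT k hk.le).1, (hU k hk.le).1]
  have hzero : ∀ x ∈ S, ∀ k < m, (hasseDeriv k (f ^ m * P)).eval x = 0 := by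
    intro x hx k hk
    rw [hder k hk, eval_finsetSum]
    have hxQ : ∀ j : ℕ, x ^ (j * Q) = x ^ j := by
      intro j
      rw [mul_comm, pow_mul, hQ, FiniteField.pow_card]
    have h3 : ∀ j : Fin J, (((f ^ (m - k) * T k (r j)) * X ^ ((j : ℕ) * Q) +
        (f ^ (m + c - k) * U k (s j)) * X ^ ((j : ℕ) * Q)) : K[X]).eval x =
        f.eval x ^ (m - k) * (((T k (r j) + C b * U k (s j)) * X ^ (j : ℕ) : K[X]).eval x) := by
      intro j
      have h4 : m + c - k = (m - k) + c := by omega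
      simp only [eval_add, eval_mul, eval_pow, eval_X, eval_C, hxQ, h4, pow_add, hS x hx]
      ring
    rw [Finset.sum_congr rfl fun j _ => h3 j, ← Finset.mul_sum, ← eval_finsetSum, hrs k hk]
    simp
  have hmain := card_mul_le (f ^ m * P) hRne S m hzero
  -- the degree
  have hdegP : P.natDegree ≤ A + c * d + (h + d + 2) * Q := by
    rw [hP]
    refine natDegree_sum_le_of_forall_le _ _ fun j _ => ?_
    have hj : (j : ℕ) ≤ h + d + 2 := by
      have := j.2
      omega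
    have h5 : (r j).natDegree ≤ A := by
      have := hr j
      rw [mem_degreeLT] at this
      exact natDegree_le_of_degree_le this.le
    have h6 : (s j).natDegree ≤ A := by
      have := hs j
      rw [mem_degreeLT] at this
      exact natDegree_le_of_degree_le this.le
    have h7 : (r j + s j * f ^ c).natDegree ≤ A + c * d := by
      refine (natDegree_add_le _ _).trans (max_le (by omega) ?_)
      refine natDegree_mul_le.trans ?_
      rw [natDegree_pow, ← hdd]
      omega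
    refine natDegree_mul_le.trans ?_
    rw [natDegree_X_pow]
    have h8 : (j : ℕ) * Q ≤ (h + d + 2) * Q := Nat.mul_le_mul_right _ hj
    omega
  have hdegR : (f ^ m * P).natDegree ≤ m * d + (A + c * d + (h + d + 2) * Q) := by
    refine natDegree_mul_le.trans ?_
    rw [natDegree_pow, ← hdd]
    omega
  exact hmain.trans hdegR

/-- passing to real numbers -/
theorem s5_real (Q d m A h c N : ℕ) (hd : 1 ≤ d) (hbig : 4 * (d + 3) ^ 2 ≤ Q)
    (hm : m * m ≤ Q) (hm1 : Q < (m + 1) * (m + 1)) (hA : 2 * A + d ≤ Q) (hh : 2 * h ≤ m)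
    (hc : Q = 2 * c + 1)
    (hN : m * N ≤ m * d + (A + c * d + (h + d + 2) * Q)) :
    (N : ℝ) ≤ Q / 2 + (4 * d + 5) * Real.sqrt Q := by
  have hQ0 : (0 : ℝ) ≤ Q := Nat.cast_nonneg _
  have hs0 := Real.sqrt_nonneg (Q : ℝ)
  have hs2 : Real.sqrt Q * Real.sqrt Q = Q := Real.mul_self_sqrt hQ0
  set t := Real.sqrt (Q : ℝ) with ht
  have hmR : (m : ℝ) * m ≤ Q := by exact_mod_cast hm
  have hm1R : (Q : ℝ) < (m + 1) * (m + 1) := by exact_mod_cast hm1
  have hbigR : 4 * ((d : ℝ) + 3) ^ 2 ≤ Q := by exact_mod_cast hbig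
  have hdR : (1 : ℝ) ≤ d := by exact_mod_cast hd
  have hAR : 2 * (A : ℝ) + d ≤ Q := by exact_mod_cast hA
  have hhR : 2 * (h : ℝ) ≤ m := by exact_mod_cast hh
  have hcR : (Q : ℝ) = 2 * c + 1 := by exact_mod_cast hc
  have hNR : (m : ℝ) * N ≤ m * d + (A + c * d + (h + d + 2) * Q) := by exact_mod_cast hN
  have hm0 : (0 : ℝ) ≤ m := Nat.cast_nonneg _
  have htm : t < m + 1 := by
    by_contra hcon
    push Not at hcon
    nlinarith
  have ht8 : 2 * ((d : ℝ) + 3) ≤ t := by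
    rw [ht]
    apply Real.le_sqrt_of_sq_le
    nlinarith
  have hmt : t ≤ 2 * m := by linarith
  have hmpos : (0 : ℝ) < m := by linarith
  -- Q ≤ 2 m t
  have hQm : (Q : ℝ) ≤ 2 * m * t := by nlinarith
  have h1 : (m : ℝ) * N ≤ m * (Q / 2 + (4 * d + 5) * t) := by
    have e1 : (c : ℝ) * d ≤ d * Q / 2 := by
      have : 0 ≤ (d : ℝ) := by linarith
      nlinarith
    have e2 : (h + d + 2) * (Q : ℝ) ≤ (m / 2 + d + 2) * Q :=
      mul_le_mul_of_nonneg_right (by linarith) hQ0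
    have e3 : (m : ℝ) * N ≤ m * (Q / 2) + (m * d + (3 * d + 5) / 2 * Q) := by nlinarith
    have e4 : (3 * (d : ℝ) + 5) / 2 * Q ≤ (3 * d + 5) / 2 * (2 * m * t) :=
      mul_le_mul_of_nonneg_left hQm (by linarith)
    have e5 : (m : ℝ) * d ≤ m * (d * t) := by
      apply mul_le_mul_of_nonneg_left _ hm0
      nlinarith
    nlinarith
  exact le_of_mul_le_mul_left h1 hmpos

open Classical in
/-- S5: the upper bound (uses S1-S4) -/
theorem card_Sa_le {K : Type} [Field K] [Fintype K] (c : ℕ) (hc : Fintype.card K = 2 * c + 1)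
    (f : K[X]) (hf : Squarefree f) (hd : 1 ≤ f.natDegree)
    (hbig : 4 * (f.natDegree + 3) ^ 2 ≤ Fintype.card K) (b : K) (hb : b = 1 ∨ b = -1) :
    ((univ.filter fun x : K => f.eval x ^ c = b).card : ℝ) ≤
      Fintype.card K / 2 + (4 * f.natDegree + 5) * Real.sqrt (Fintype.card K) := by
  rcases (univ.filter fun x : K => f.eval x ^ c = b).eq_empty_or_nonempty with he | ⟨x₀, hx₀⟩
  · rw [he, card_empty, Nat.cast_zero]
    positivity
  rw [mem_filter] at hx₀
  have hb0 : b ≠ 0 := by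
    rcases hb with rfl | rfl
    · exact one_ne_zero
    · exact neg_ne_zero.2 one_ne_zero
  have hc0 : c ≠ 0 := by
    rintro rfl
    nlinarith
  -- translate
  set e := algEquivAevalXAddC (R := K) x₀ with he
  have h1 : e f = f.comp (X + C x₀) := by
    rw [he]
    simp [algEquivAevalXAddC, comp_eq_aeval]
  have hcomp : ∀ x : K, (e f).eval x = f.eval (x + x₀) := by
    intro x
    rw [h1, eval_comp]
    simp
  have hsq : Squarefree (e f) := s5_sqf e hf
  have hdeg : (e f).natDegree = f.natDegree := by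
    rw [h1, natDegree_comp, natDegree_X_add_C, mul_one]
  have h0 : (e f).eval 0 ≠ 0 := by
    rw [hcomp, zero_add]
    intro h
    rw [h, zero_pow hc0] at hx₀
    exact hb0 hx₀.2.symm
  have hinj : Function.Injective (fun x : K => x - x₀) := sub_left_injective
  have hmain := s5_core c hc (e f) hsq (by rw [hdeg]; exact hd) (by rw [hdeg]; exact hbig) b h0
    ((univ.filter fun x : K => f.eval x ^ c = b).map ⟨fun x => x - x₀, hinj⟩) (by
      intro y hy
      rw [Finset.mem_map] at hy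
      obtain ⟨x, hx, rfl⟩ := hy
      rw [mem_filter] at hx
      rw [hcomp]
      simpa using hx.2)
  rw [card_map, hdeg] at hmain
  have hdQ : f.natDegree ≤ Fintype.card K := by nlinarith
  exact s5_real (Fintype.card K) f.natDegree (Nat.sqrt (Fintype.card K))
    ((Fintype.card K - f.natDegree) / 2) (Nat.sqrt (Fintype.card K) / 2) c _ hd hbig
    (Nat.sqrt_le _) (Nat.lt_succ_sqrt _) (by omega) (by omega) hc hmain

end Pool.Agent.Helper54.PT
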